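import Mathlib
import Pool.Agent.H16.Rich

set_option autoImplicit false

namespace Pool.Agent.Results.MP_dfec24_co.Counter

open Pool.Agent.H16.Rich

theorem result : ¬ ∀ b k : ℕ, 2 ≤ b → 1 ≤ k → Rich (S^[k] (tm b)) :=
  fun h => tm_not (h 6 9 (by norm_num) (by norm_num))

end Pool.Agent.Results.MP_dfec24_co.Counter
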